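import Pool.Agent.X35.KM.Main

set_option autoImplicit false

/-!
# The first moments of the Sato-Tate measure
-/

namespace Pool.Agent.X35.KM

open Finset Polynomial intervalIntegral

theorem int0 : ∫ u in (0 : ℝ)..Real.pi, Real.cos u ^ 0 * Real.sin u ^ 2 = Real.pi / 2 * mu 0 := by
  simp only [pow_zero, one_mul]
  rw [integral_sin_sq]
  simp [mu]

theorem int_odd (n : ℕ) : ∫ u in (0 : ℝ)..Real.pi, Real.cos u ^ (2 * n + 1) * Real.sin u ^ 2 = 0 := by
  have h : (fun u : ℝ => Real.cos u ^ (2 * n + 1) * Real.sin u ^ 2) =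
      fun u : ℝ => Real.sin u ^ 2 * Real.cos u ^ (2 * n + 1) := by
    funext u; ring
  rw [h, integral_sin_pow_mul_cos_pow_odd]
  simp

theorem int2 : ∫ u in (0 : ℝ)..Real.pi, Real.cos u ^ 2 * Real.sin u ^ 2 = Real.pi / 2 * mu 2 := by
  have h : (fun u : ℝ => Real.cos u ^ 2 * Real.sin u ^ 2) =
      fun u : ℝ => Real.sin u ^ 2 * Real.cos u ^ 2 := by
    funext u; ring
  rw [h, integral_sin_sq_mul_cos_sq]
  have h4 : Real.sin (4 * Real.pi) = 0 := by
    have := Real.sin_nat_mul_pi 4
    simpa using this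
  rw [h4]
  simp [mu]
  ring

theorem int4 : ∫ u in (0 : ℝ)..Real.pi, Real.cos u ^ 4 * Real.sin u ^ 2 = Real.pi / 2 * mu 4 := by
  have h : (fun u : ℝ => Real.cos u ^ 4 * Real.sin u ^ 2) =
      fun u : ℝ => Real.cos u ^ 4 - Real.cos u ^ 6 := by
    funext u
    rw [Real.sin_sq]
    ring
  have hc4 : ∫ u in (0 : ℝ)..Real.pi, Real.cos u ^ 4 = 3 * Real.pi / 8 := by
    have := integral_cos_pow (a := 0) (b := Real.pi) 2
    norm_num at this
    rw [this]
    have h2 := integral_cos_sq (a := 0) (b := Real.pi)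
    norm_num at h2
    linarith
  have hc6 : ∫ u in (0 : ℝ)..Real.pi, Real.cos u ^ 6 = 5 * Real.pi / 16 := by
    have := integral_cos_pow (a := 0) (b := Real.pi) 4
    norm_num at this
    rw [this, hc4]
    ring
  rw [h, integral_sub, hc4, hc6]
  · simp [mu]
    ring
  · exact (Real.continuous_cos.pow 4).intervalIntegrable _ _
  · exact (Real.continuous_cos.pow 6).intervalIntegrable _ _

/-- the mean value as an integral -/
theorem stp_eq {P : ℝ[X]} (hP : P.natDegree ≤ 4) :
    2 / Real.pi * ∫ u in (0 : ℝ)..Real.pi, P.eval (Real.cos u) * Real.sin u ^ 2 = stp P := by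
  have hpi := Real.pi_pos
  have h1 : (fun u : ℝ => P.eval (Real.cos u) * Real.sin u ^ 2) =
      fun u : ℝ => ∑ k ∈ range 5, P.coeff k * (Real.cos u ^ k * Real.sin u ^ 2) := by
    funext u
    rw [eval_eq_sum_range' (Nat.lt_succ_of_le hP), sum_mul]
    exact sum_congr rfl fun k _ => by ring
  rw [h1, intervalIntegral.integral_finset_sum]
  · unfold stp
    rw [mul_sum]
    refine sum_congr rfl fun k hk => ?_
    rw [intervalIntegral.integral_const_mul]
    have hk5 := mem_range.1 hk
    interval_cases k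
    · rw [int0]; field_simp
    · have := int_odd 0
      norm_num at this
      norm_num [this, mu]
    · rw [int2]; field_simp
    · have := int_odd 1
      norm_num at this
      norm_num [this, mu]
    · rw [int4]; field_simp
  · intro k _
    exact (continuous_const.mul ((Real.continuous_cos.pow k).mul (Real.continuous_sin.pow 2))).intervalIntegrable _ _

end Pool.Agent.X35.KM
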