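import Pool.Agent.TH375.KL.Core
import Pool.Agent.H498R2.KlWeil

set_option autoImplicit false

/-!
# The first four moments of the Kloosterman sums over the nonzero residues, with asymptotics
-/

namespace Pool.Agent.X35.KM

open Finset Pool.Agent.Helper916 Pool.Agent.TH375.KL

section General

variable {F : Type*} [Field F] [Fintype F] [DecidableEq F]

/-- the fourth moment as a number of solutions -/
theorem kl_fourth_eq (ψ : AddChar F ℂ) (hψ : ψ.IsPrimitive) :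
    ∑ b : F, ∑ c : F, ‖Kl ψ b c‖ ^ 4 = (Fintype.card F : ℝ) ^ 2 *
      ((∑ π ∈ (univ.erase (0 : F)) ×ˢ (univ.erase (0 : F)),
        (((univ.erase (0 : F)) ×ˢ (univ.erase (0 : F))).filter
        (fun π' => π.1 + π.2 = π'.1 + π'.2 ∧ π.1⁻¹ + π.2⁻¹ = π'.1⁻¹ + π'.2⁻¹)).card : ℕ) : ℝ) := by
  set U : Finset F := Finset.univ.erase (0 : F) with hU
  have h1 : ((∑ b : F, ∑ c : F, ‖Kl ψ b c‖ ^ 4 : ℝ) : ℂ)
      = (Fintype.card F : ℂ) ^ 2 * ((∑ π ∈ U ×ˢ U, ((U ×ˢ U).filter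
        (fun π' => π.1 + π.2 = π'.1 + π'.2 ∧ π.1⁻¹ + π.2⁻¹ = π'.1⁻¹ + π'.2⁻¹)).card : ℕ) : ℂ) := by
    push_cast
    have e1 : ∀ b c : F, ((‖Kl ψ b c‖ : ℂ)) ^ 4 = ∑ π ∈ U ×ˢ U, ∑ π' ∈ U ×ˢ U,
        ψ (b * ((π.1 + π.2) - (π'.1 + π'.2))) * ψ (c * ((π.1⁻¹ + π.2⁻¹) - (π'.1⁻¹ + π'.2⁻¹))) := by
      intro b c
      have e2 : ((‖Kl ψ b c‖ : ℂ)) ^ 4 = (Kl ψ b c) ^ 2 * (starRingEnd ℂ) ((Kl ψ b c) ^ 2) := by
        rw [Complex.mul_conj', norm_pow]; push_cast; ring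
      rw [e2, Kl_sq, map_sum, Finset.sum_mul_sum]
      refine Finset.sum_congr rfl fun π _ => Finset.sum_congr rfl fun π' _ => ?_
      rw [← AddChar.map_neg_eq_conj, ← AddChar.map_add_eq_mul, ← AddChar.map_add_eq_mul]
      congr 1
      ring
    have e3 : ∑ b : F, ∑ c : F, ((‖Kl ψ b c‖ : ℂ)) ^ 4
        = ∑ π ∈ U ×ˢ U, ∑ π' ∈ U ×ˢ U, (∑ b : F, ψ (b * ((π.1 + π.2) - (π'.1 + π'.2)))) *
          (∑ c : F, ψ (c * ((π.1⁻¹ + π.2⁻¹) - (π'.1⁻¹ + π'.2⁻¹)))) := by
      rw [Finset.sum_congr rfl fun b _ => Finset.sum_congr rfl fun c _ => e1 b c]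
      rw [Finset.sum_congr rfl fun b _ => Finset.sum_comm]
      rw [Finset.sum_comm]
      refine Finset.sum_congr rfl fun π _ => ?_
      rw [Finset.sum_congr rfl fun b _ => Finset.sum_comm]
      rw [Finset.sum_comm]
      refine Finset.sum_congr rfl fun π' _ => ?_
      rw [Finset.sum_mul_sum]
    rw [e3, Finset.mul_sum]
    refine Finset.sum_congr rfl fun π _ => ?_
    simp_rw [AddChar.sum_mulShift _ hψ, sub_eq_zero]
    rw [Finset.card_filter]
    push_cast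
    rw [Finset.mul_sum]
    refine Finset.sum_congr rfl fun π' _ => ?_
    by_cases c1 : π.1 + π.2 = π'.1 + π'.2
    · by_cases c2 : π.1⁻¹ + π.2⁻¹ = π'.1⁻¹ + π'.2⁻¹
      · simp [c1, c2, sq]
      · simp [c1, c2]
    · simp [c1]
  exact_mod_cast h1

/-- the trivial solutions -/
theorem kl_count_ge :
    3 * ((Fintype.card F : ℝ) - 1) ^ 2 - 4 * ((Fintype.card F : ℝ) - 1) ≤
    ((∑ π ∈ (univ.erase (0 : F)) ×ˢ (univ.erase (0 : F)),
      (((univ.erase (0 : F)) ×ˢ (univ.erase (0 : F))).filter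
        (fun π' => π.1 + π.2 = π'.1 + π'.2 ∧ π.1⁻¹ + π.2⁻¹ = π'.1⁻¹ + π'.2⁻¹)).card : ℕ) : ℝ) := by
  set U : Finset F := Finset.univ.erase (0 : F) with hU
  have hUc : (U.card : ℝ) = (Fintype.card F : ℝ) - 1 := by
    rw [hU, Finset.card_erase_of_mem (Finset.mem_univ _), Finset.card_univ,
      Nat.cast_sub Fintype.card_pos]
    simp
  have hUmem : ∀ x : F, x ∈ U ↔ x ≠ 0 := by
    intro x
    rw [hU, mem_erase]
    exact ⟨fun h => h.1, fun h => ⟨h, mem_univ _⟩⟩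
  -- lower bound for every pair
  have h1 : ∀ π ∈ U ×ˢ U, ((if π.1 + π.2 = 0 then (U.card : ℝ) else 0) +
      ((2 - (if π.1 + π.2 = 0 then 2 else 0)) - (if π.1 = π.2 then 2 else 0))) ≤
      (((U ×ˢ U).filter (fun π' => π.1 + π.2 = π'.1 + π'.2 ∧
        π.1⁻¹ + π.2⁻¹ = π'.1⁻¹ + π'.2⁻¹)).card : ℝ) := by
    intro π hπ
    rw [mem_product, hUmem, hUmem] at hπ
    obtain ⟨hx, hy⟩ := hπ
    by_cases hs : π.1 + π.2 = 0
    · rw [if_pos hs, if_pos hs]
      have hsub : U.image (fun x => (x, -x)) ⊆ (U ×ˢ U).filter (fun π' => π.1 + π.2 = π'.1 + π'.2 ∧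
        π.1⁻¹ + π.2⁻¹ = π'.1⁻¹ + π'.2⁻¹) := by
        intro w hw
        obtain ⟨x, hx0, rfl⟩ := mem_image.1 hw
        rw [hUmem] at hx0
        rw [mem_filter, mem_product, hUmem, hUmem]
        refine ⟨⟨hx0, neg_ne_zero.2 hx0⟩, ?_, ?_⟩
        · show π.1 + π.2 = x + -x
          rw [hs, add_neg_cancel]
        · show π.1⁻¹ + π.2⁻¹ = x⁻¹ + (-x)⁻¹
          have h2 : π.2 = -π.1 := eq_neg_of_add_eq_zero_right hs
          rw [h2, inv_neg, inv_neg, add_neg_cancel, add_neg_cancel]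
      have h2 := card_le_card hsub
      rw [card_image_of_injective _ (fun a b hab => (Prod.mk.inj hab).1)] at h2
      have h3 : (U.card : ℝ) ≤ (((U ×ˢ U).filter (fun π' => π.1 + π.2 = π'.1 + π'.2 ∧
        π.1⁻¹ + π.2⁻¹ = π'.1⁻¹ + π'.2⁻¹)).card : ℝ) := by exact_mod_cast h2
      split_ifs <;> linarith
    · rw [if_neg hs, if_neg hs]
      by_cases he : π.1 = π.2
      · rw [if_pos he]
        have : (0 : ℝ) ≤ (((U ×ˢ U).filter (fun π' => π.1 + π.2 = π'.1 + π'.2 ∧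
          π.1⁻¹ + π.2⁻¹ = π'.1⁻¹ + π'.2⁻¹)).card : ℝ) := Nat.cast_nonneg _
        linarith
      · rw [if_neg he]
        have hsub : ({(π.1, π.2), (π.2, π.1)} : Finset (F × F)) ⊆
            (U ×ˢ U).filter (fun π' => π.1 + π.2 = π'.1 + π'.2 ∧
            π.1⁻¹ + π.2⁻¹ = π'.1⁻¹ + π'.2⁻¹) := by
          intro w hw
          rw [mem_insert, mem_singleton] at hw
          rw [mem_filter, mem_product, hUmem, hUmem]
          rcases hw with rfl | rfl
          · exact ⟨⟨hx, hy⟩, rfl, rfl⟩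
          · exact ⟨⟨hy, hx⟩, add_comm _ _, add_comm _ _⟩
        have h2 := card_le_card hsub
        rw [card_pair (by
          intro h
          exact he (Prod.mk.inj h).1)] at h2
        have h3 : (2 : ℝ) ≤ (((U ×ˢ U).filter (fun π' => π.1 + π.2 = π'.1 + π'.2 ∧
          π.1⁻¹ + π.2⁻¹ = π'.1⁻¹ + π'.2⁻¹)).card : ℝ) := by exact_mod_cast h2
        linarith
  have hd : (((U ×ˢ U).filter (fun π : F × F => π.1 = π.2)).card : ℝ) = U.card := by
    congr 1
    have : (U ×ˢ U).filter (fun π : F × F => π.1 = π.2) = U.image (fun x => (x, x)) := by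
      ext w
      rw [mem_filter, mem_product, mem_image]
      constructor
      · rintro ⟨⟨h2, h3⟩, h4⟩
        exact ⟨w.1, h2, Prod.ext rfl h4⟩
      · rintro ⟨x, hx, rfl⟩
        exact ⟨⟨hx, hx⟩, rfl⟩
    rw [this, card_image_of_injective _ (fun a b hab => (Prod.mk.inj hab).1)]
  have hs : (((U ×ˢ U).filter (fun π : F × F => π.1 + π.2 = 0)).card : ℝ) = U.card := by
    congr 1
    have : (U ×ˢ U).filter (fun π : F × F => π.1 + π.2 = 0) = U.image (fun x => (x, -x)) := by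
      ext w
      rw [mem_filter, mem_product, mem_image]
      constructor
      · rintro ⟨⟨h2, h3⟩, h4⟩
        exact ⟨w.1, h2, Prod.ext rfl (eq_neg_of_add_eq_zero_right h4).symm⟩
      · rintro ⟨x, hx, rfl⟩
        rw [hUmem] at hx
        rw [hUmem, hUmem]
        exact ⟨⟨hx, neg_ne_zero.2 hx⟩, add_neg_cancel x⟩
    rw [this, card_image_of_injective _ (fun a b hab => (Prod.mk.inj hab).1)]
  push_cast
  refine le_trans (le_of_eq ?_) (sum_le_sum h1)
  rw [sum_add_distrib, sum_sub_distrib, sum_sub_distrib, ← sum_filter, sum_const, nsmul_eq_mul, hs,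
    sum_const, nsmul_eq_mul, card_product, ← sum_filter, sum_const, nsmul_eq_mul, hs,
    ← sum_filter, sum_const, nsmul_eq_mul, hd, ← hUc]
  push_cast
  ring

end General

variable {p : ℕ} [hp : Fact p.Prime]

theorem two_dim_four_ge : (p : ℝ) ^ 2 * (3 * ((p : ℝ) - 1) ^ 2 - 4 * ((p : ℝ) - 1)) ≤
    ∑ b : ZMod p, ∑ c : ZMod p, rk p b c ^ 4 := by
  have h1 := kl_fourth_eq (ZMod.stdAddChar (N := p)) (prim (p := p))
  have h0 := kl_count_ge (F := ZMod p)
  rw [ZMod.card] at h1 h0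
  have h6 := mul_le_mul_of_nonneg_left h0 (by positivity : (0 : ℝ) ≤ (p : ℝ) ^ 2)
  refine h6.trans ?_
  rw [← h1]
  refine le_of_eq ?_
  refine sum_congr rfl fun b _ => sum_congr rfl fun c _ => ?_
  have h2 : ‖Kl (ZMod.stdAddChar (N := p)) b c‖ = |rk p b c| := by
    have h3 := rk_eq (p := p) b c
    have h4 : Kl (ZMod.stdAddChar (N := p)) b c = (rk p b c : ℂ) := h3.symm
    rw [h4, Complex.norm_real, Real.norm_eq_abs]
  rw [h2]
  have h5 : |rk p b c| ^ 4 = (|rk p b c| ^ 2) ^ 2 := by ring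
  rw [h5, sq_abs]
  ring

theorem m4_ge : 2 * (p : ℝ) ^ 3 - 7 * (p : ℝ) ^ 2 ≤ ∑ a : ZMod p, rk p a 1 ^ 4 := by
  have h1 := moment_eq (p := p) 4
  have h2 := two_dim_four_ge (p := p)
  have hp1 := p_gt (p := p)
  have hp0 : 0 < (p : ℝ) - 1 := by linarith
  refine le_of_mul_le_mul_left (a := (p : ℝ) - 1) ?_ hp0
  rw [h1]
  have h4 : ((p : ℝ) - 1) * (-1) ^ 4 = (p : ℝ) - 1 := by ring
  rw [h4]
  have h5 : (p : ℝ) ^ 2 * (3 * ((p : ℝ) - 1) ^ 2 - 4 * ((p : ℝ) - 1)) - ((p : ℝ) - 1) ^ 4 -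
      ((p : ℝ) - 1) - ((p : ℝ) - 1) * (2 * (p : ℝ) ^ 3 - 7 * (p : ℝ) ^ 2) =
      ((p : ℝ) - 1) * (3 * (p : ℝ) ^ 2 - 3 * p) := by ring
  have h6 : 0 ≤ ((p : ℝ) - 1) * (3 * (p : ℝ) ^ 2 - 3 * p) := by
    refine mul_nonneg hp0.le ?_
    nlinarith
  linarith

/-- `S(0, 1; p) = -1` -/
theorem rk_zero_one : rk p 0 1 = -1 := by
  unfold rk
  have h : Pool.Agent.TH375.KL.KK p 0 1 = -1 := by
    unfold Pool.Agent.TH375.KL.KK Kl
    simp only [zero_mul, zero_add, one_mul]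
    have h1 : ∑ z : ZMod p, ZMod.stdAddChar z = (0 : ℂ) := by
      have := AddChar.sum_mulShift (1 : ZMod p) (prim (p := p))
      rw [if_neg one_ne_zero, Nat.cast_zero] at this
      rw [← this]
      exact sum_congr rfl fun z _ => by rw [mul_one]
    rw [← add_sum_erase _ _ (mem_univ (0 : ZMod p)), AddChar.map_zero_eq_one] at h1
    have h2 : ∑ z ∈ univ.erase (0 : ZMod p), (ZMod.stdAddChar z⁻¹ : ℂ) =
        ∑ z ∈ univ.erase (0 : ZMod p), ZMod.stdAddChar z := by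
      refine Finset.sum_bij (fun z _ => z⁻¹) ?_ ?_ ?_ ?_
      · intro z hz
        rw [mem_erase] at hz ⊢
        exact ⟨inv_ne_zero hz.1, mem_univ _⟩
      · intro x _ y _ hxy
        exact inv_injective hxy
      · intro y hy
        refine ⟨y⁻¹, ?_, inv_inv y⟩
        rw [mem_erase] at hy ⊢
        exact ⟨inv_ne_zero hy.1, mem_univ _⟩
      · intro z _
        rfl
    rw [h2]
    linear_combination h1
  rw [h]
  simp

/-- Weil's bound -/
theorem rk_le (a : ZMod p) : |rk p a 1| ≤ 2 * Real.sqrt p := by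
  have hs1 : 1 ≤ Real.sqrt p := by
    rw [Real.one_le_sqrt]
    exact_mod_cast hp.out.one_le
  by_cases ha : a = 0
  · rw [ha, rk_zero_one, abs_neg, abs_one]
    linarith
  by_cases h2 : p = 2
  · have h3 : |rk p a 1| ≤ (univ.erase (0 : ZMod p)).card := by
      unfold rk
      refine (Complex.abs_re_le_norm _).trans ?_
      unfold Pool.Agent.TH375.KL.KK Kl
      refine (norm_sum_le _ _).trans (le_of_eq ?_)
      rw [sum_congr rfl fun z _ => AddChar.norm_apply _ _, sum_const, nsmul_eq_mul, mul_one]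
    rw [card_erase_of_mem (mem_univ _), card_univ, ZMod.card] at h3
    have h4 : ((p - 1 : ℕ) : ℝ) = 1 := by rw [h2]; norm_num
    rw [h4] at h3
    linarith
  · have hF : ringChar (ZMod p) ≠ 2 := by rwa [ZMod.ringChar_zmod_n]
    have h3 := Pool.Agent.H498R2.Kl.kloosterman_le (F := ZMod p) hF (prim (p := p)) ha (one_ne_zero)
    rw [ZMod.card] at h3
    refine le_trans ?_ h3
    unfold rk
    refine (Complex.abs_re_le_norm _).trans (le_of_eq ?_)
    congr 1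
    unfold Pool.Agent.TH375.KL.KK Kl
    rw [← add_sum_erase _ _ (mem_univ (0 : ZMod p)), if_pos rfl, zero_add]
    refine sum_congr rfl fun z hz => ?_
    rw [if_neg (mem_erase.1 hz).1]

/-- the normalised sum -/
noncomputable def xx (p : ℕ) [Fact p.Prime] (a : ZMod p) : ℝ := rk p a 1 / (2 * Real.sqrt p)

theorem xx_le (a : ZMod p) : |xx p a| ≤ 1 := by
  have hs1 : 1 ≤ Real.sqrt p := by
    rw [Real.one_le_sqrt]
    exact_mod_cast hp.out.one_le
  unfold xx
  rw [abs_div, abs_of_pos (by linarith : 0 < 2 * Real.sqrt p), div_le_one (by linarith)]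
  exact rk_le a

/-- the moments of the Sato-Tate measure for the cosine -/
noncomputable def mu : ℕ → ℝ
  | 0 => 1
  | 2 => 1 / 4
  | 4 => 1 / 8
  | _ => 0

/-- the moments over the nonzero residues -/
theorem moments {k : ℕ} (hk : k ≤ 4) :
    |(∑ a ∈ univ.erase (0 : ZMod p), xx p a ^ k) / p - mu k| ≤ 1 / Real.sqrt p := by
  set t := Real.sqrt p with ht
  have hp0 : (0 : ℝ) < p := by exact_mod_cast hp.out.pos
  have hp2 : (2 : ℝ) ≤ p := by exact_mod_cast hp.out.two_le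
  have ht0 : 0 < t := Real.sqrt_pos.2 hp0
  have htt : t ^ 2 = p := Real.sq_sqrt hp0.le
  have ht1 : 1 ≤ t := by
    rw [ht, Real.one_le_sqrt]
    linarith
  have hsum : ∀ k : ℕ, ∑ a ∈ univ.erase (0 : ZMod p), xx p a ^ k =
      ((∑ a : ZMod p, rk p a 1 ^ k) - (-1) ^ k) / (2 * t) ^ k := by
    intro k
    have h1 : ∑ a : ZMod p, rk p a 1 ^ k = (-1) ^ k + ∑ a ∈ univ.erase (0 : ZMod p), rk p a 1 ^ k := by
      rw [← add_sum_erase _ _ (mem_univ (0 : ZMod p)), rk_zero_one]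
    rw [h1, add_sub_cancel_left, sum_div]
    refine sum_congr rfl fun a _ => ?_
    unfold xx
    rw [div_pow]
  have hpt : (p : ℝ) = t ^ 2 := htt.symm
  interval_cases k
  · -- k = 0
    simp only [pow_zero, sum_const, nsmul_eq_mul, mul_one, mu]
    rw [card_erase_of_mem (mem_univ _), card_univ, ZMod.card, Nat.cast_sub hp.out.one_le, Nat.cast_one]
    have e : ((p : ℝ) - 1) / p - 1 = -(1 / p) := by field_simp; ring
    rw [e, abs_neg, abs_of_pos (by positivity), hpt]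
    apply one_div_le_one_div_of_le ht0
    nlinarith
  · -- k = 1
    rw [hsum 1]
    simp only [pow_one]
    rw [m1]
    simp only [mu, sub_zero, zero_sub, neg_neg]
    rw [abs_of_pos (by positivity), div_div]
    apply one_div_le_one_div_of_le ht0
    nlinarith [mul_pos ht0 hp0]
  · -- k = 2
    rw [hsum 2, m2]
    simp only [mu]
    have e : (((p : ℝ) * ((p : ℝ) - 1) - (-1) ^ 2) / (2 * t) ^ 2) / p - 1 / 4 = -((p + 1) / (4 * p ^ 2)) := by
      rw [mul_pow, htt]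
      field_simp
      ring
    rw [e, abs_neg, abs_of_pos (by positivity), div_le_div_iff₀ (by positivity) ht0]
    have h3 : ((p : ℝ) + 1) * t ≤ (2 * p) * p := by
      have h4 : t ≤ p := by rw [hpt]; nlinarith
      nlinarith
    nlinarith
  · -- k = 3
    rw [hsum 3]
    simp only [mu, sub_zero]
    have h3 := m3 (p := p)
    rw [abs_div, abs_div, abs_of_pos hp0, abs_of_pos (by positivity : (0 : ℝ) < (2 * t) ^ 3), div_div,
      div_le_div_iff₀ (by positivity) ht0]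
    have h4 : |(∑ a : ZMod p, rk p a 1 ^ 3) - (-1) ^ 3| ≤ 3 * (p : ℝ) ^ 2 := by
      refine (abs_sub _ _).trans ?_
      have h5 : |((-1 : ℝ)) ^ 3| = 1 := by norm_num
      rw [h5]
      nlinarith
    have h5 : 3 * (p : ℝ) ^ 2 * t ≤ 1 * ((2 * t) ^ 3 * p) := by
      rw [hpt]
      have : 0 < t ^ 5 := by positivity
      nlinarith
    refine le_trans ?_ h5
    exact mul_le_mul_of_nonneg_right h4 ht0.le
  · -- k = 4
    rw [hsum 4]
    simp only [mu]
    have h3 := m4 (p := p)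
    have h4 := m4_ge (p := p)
    have e : (((∑ a : ZMod p, rk p a 1 ^ 4) - (-1) ^ 4) / (2 * t) ^ 4) / p - 1 / 8 =
        ((∑ a : ZMod p, rk p a 1 ^ 4) - 1 - 2 * (p : ℝ) ^ 3) / (16 * (p : ℝ) ^ 3) := by
      have : (2 * t) ^ 4 = 16 * (p : ℝ) ^ 2 := by rw [hpt]; ring
      rw [this]
      field_simp
      ring
    rw [e, abs_div, abs_of_pos (by positivity : (0 : ℝ) < 16 * (p : ℝ) ^ 3),
      div_le_div_iff₀ (by positivity) ht0]
    have h5 : |(∑ a : ZMod p, rk p a 1 ^ 4) - 1 - 2 * (p : ℝ) ^ 3| ≤ 8 * (p : ℝ) ^ 2 := by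
      rw [abs_le]
      constructor
      · nlinarith
      · nlinarith
    have h6 : 8 * (p : ℝ) ^ 2 * t ≤ 1 * (16 * (p : ℝ) ^ 3) := by
      have h7 : t ≤ p := by rw [hpt]; nlinarith
      have h8 : (0 : ℝ) < p ^ 2 := by positivity
      nlinarith
    exact (mul_le_mul_of_nonneg_right h5 ht0.le).trans h6

end Pool.Agent.X35.KM
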