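import Pool.Agent.X35.KM.M4

set_option autoImplicit false

/-!
# Polynomials of degree at most four in the cosines of the Kloosterman angles, for almost all integers
-/

namespace Pool.Agent.X35.KM

open Finset Polynomial Filter Topology Pool.Agent.TH375.KL

/-- the mean value of a polynomial -/
noncomputable def stp (P : ℝ[X]) : ℝ := ∑ k ∈ range 5, P.coeff k * mu k

/-- bound for a polynomial -/
noncomputable def bd (P : ℝ[X]) : ℝ := 1 + ∑ k ∈ range 5, |P.coeff k|

theorem bd_pos (P : ℝ[X]) : 1 ≤ bd P := by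
  unfold bd
  have : 0 ≤ ∑ k ∈ range 5, |P.coeff k| := sum_nonneg fun _ _ => abs_nonneg _
  linarith

/-- the function to be averaged -/
noncomputable def GP (P : ℝ[X]) (p : ℕ) (a : ZMod p) : ℝ := by
  classical
  exact if h : p.Prime then (haveI : Fact p.Prime := ⟨h⟩; if a = 0 then 0 else P.eval (xx p a) / bd P)
    else 0

theorem GP_prime (P : ℝ[X]) (p : ℕ) [hp : Fact p.Prime] (a : ZMod p) :
    GP P p a = if a = 0 then 0 else P.eval (xx p a) / bd P := by
  unfold GP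
  rw [dif_pos hp.out]

theorem eval_le {P : ℝ[X]} (hP : P.natDegree ≤ 4) {x : ℝ} (hx : |x| ≤ 1) : |P.eval x| ≤ bd P := by
  rw [eval_eq_sum_range' (Nat.lt_succ_of_le hP)]
  refine (abs_sum_le_sum_abs _ _).trans ?_
  unfold bd
  have : ∑ k ∈ range 5, |P.coeff k * x ^ k| ≤ ∑ k ∈ range 5, |P.coeff k| := by
    refine sum_le_sum fun k _ => ?_
    rw [abs_mul, abs_pow]
    exact mul_le_of_le_one_right (abs_nonneg _) (pow_le_one₀ (abs_nonneg _) hx)
  linarith

theorem GP_le {P : ℝ[X]} (hP : P.natDegree ≤ 4) (p : ℕ) (a : ZMod p) : |GP P p a| ≤ 1 := by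
  classical
  unfold GP
  by_cases h : p.Prime
  · rw [dif_pos h]
    haveI : Fact p.Prime := ⟨h⟩
    split_ifs with ha
    · simp
    · have hb := bd_pos P
      rw [abs_div, abs_of_pos (by linarith : 0 < bd P), div_le_one (by linarith)]
      exact eval_le hP (xx_le a)
  · rw [dif_neg h]
    simp

theorem nu_GP {P : ℝ[X]} (hP : P.natDegree ≤ 4) (p : ℕ) (h : p.Prime) :
    |nu (GP P) p - stp P / bd P| ≤ 1 / Real.sqrt p := by
  classical
  haveI hp : Fact p.Prime := ⟨h⟩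
  have hb := bd_pos P
  have hp0 : (0 : ℝ) < p := by exact_mod_cast h.pos
  have ht0 : 0 < Real.sqrt p := Real.sqrt_pos.2 hp0
  have h1 : nu (GP P) p = (∑ a ∈ univ.erase (0 : ZMod p), P.eval (xx p a)) / p / bd P := by
    unfold nu
    rw [sum_range_zmod (fun a : ZMod p => GP P p a)]
    rw [← add_sum_erase _ _ (mem_univ (0 : ZMod p)), GP_prime, if_pos rfl, zero_add]
    have : ∑ a ∈ univ.erase (0 : ZMod p), GP P p a =
        (∑ a ∈ univ.erase (0 : ZMod p), P.eval (xx p a)) / bd P := by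
      rw [sum_div]
      refine sum_congr rfl fun a ha => ?_
      rw [GP_prime, if_neg (mem_erase.1 ha).1]
    rw [this]
    ring
  have h2 : (∑ a ∈ univ.erase (0 : ZMod p), P.eval (xx p a)) / p - stp P =
      ∑ k ∈ range 5, P.coeff k * ((∑ a ∈ univ.erase (0 : ZMod p), xx p a ^ k) / p - mu k) := by
    have h3 : ∑ a ∈ univ.erase (0 : ZMod p), P.eval (xx p a) =
        ∑ k ∈ range 5, P.coeff k * ∑ a ∈ univ.erase (0 : ZMod p), xx p a ^ k := by
      rw [sum_congr rfl fun a _ => eval_eq_sum_range' (Nat.lt_succ_of_le hP) (xx p a), sum_comm]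
      exact sum_congr rfl fun k _ => by rw [mul_sum]
    rw [h3, sum_div]
    unfold stp
    rw [← sum_sub_distrib]
    refine sum_congr rfl fun k _ => ?_
    ring
  have h4 : |(∑ a ∈ univ.erase (0 : ZMod p), P.eval (xx p a)) / p - stp P| ≤ bd P * (1 / Real.sqrt p) := by
    rw [h2]
    refine (abs_sum_le_sum_abs _ _).trans ?_
    have h5 : ∑ k ∈ range 5, |P.coeff k * ((∑ a ∈ univ.erase (0 : ZMod p), xx p a ^ k) / p - mu k)| ≤
        ∑ k ∈ range 5, |P.coeff k| * (1 / Real.sqrt p) := by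
      refine sum_le_sum fun k hk => ?_
      rw [abs_mul]
      refine mul_le_mul_of_nonneg_left ?_ (abs_nonneg _)
      have := mem_range.1 hk
      exact moments (by omega)
    refine h5.trans ?_
    rw [← sum_mul]
    refine mul_le_mul_of_nonneg_right ?_ (by positivity)
    unfold bd
    linarith
  rw [h1, ← sub_div, abs_div, abs_of_pos (by linarith : 0 < bd P), div_le_iff₀ (by linarith)]
  linarith

/-- the sum over the primes not dividing `a` -/
noncomputable def hor (P : ℝ[X]) (x : ℕ) (a : ℤ) : ℝ := bd P * ∑ p ∈ Pr x, GP P p (a : ZMod p)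

/-- one side -/
theorem one_side {P : ℝ[X]} (hP : P.natDegree ≤ 4) {ε : ℝ} (hε : 0 < ε) :
    ∃ C : ℝ, 0 < C ∧ ∀ (M : ℤ) (N y z : ℕ), 2 ≤ y → y ≤ z →
      open scoped Classical in
      (((Icc 1 N).filter fun n : ℕ => ∃ x, y ≤ x ∧ x ≤ z ∧
        hor P x (M + (n : ℤ)) < (stp P - ε) * Nat.primeCounting x).card : ℝ) ≤
        C * (N / Nat.primeCounting y + z * Real.log z ^ 2) := by
  have hb := bd_pos P
  have hb0 : 0 < bd P := by linarith
  obtain ⟨C, hC, h⟩ := core (GP_le hP) (m := stp P / bd P) (by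
    intro δ hδ
    have h1 : Tendsto (fun p : ℕ => 1 / Real.sqrt p) atTop (𝓝 0) := by
      simp only [one_div]
      exact (Real.tendsto_sqrt_atTop.comp tendsto_natCast_atTop_atTop).inv_tendsto_atTop
    filter_upwards [h1.eventually (gt_mem_nhds hδ)] with p hp hpp
    have h2 := nu_GP hP p hpp
    have h3 := (abs_le.1 h2).1
    linarith) (ε := ε / bd P) (by positivity)
  refine ⟨C, hC, fun M N y z hy hyz => ?_⟩
  refine le_trans ?_ (h M N y z hy hyz)
  classical
  apply Nat.cast_le.2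
  apply card_le_card
  intro n hn
  rw [mem_filter] at hn ⊢
  obtain ⟨hn1, x, hx1, hx2, hx3⟩ := hn
  refine ⟨hn1, x, hx1, hx2, ?_⟩
  unfold hor at hx3
  have h5 : (stp P - ε) * Nat.primeCounting x = bd P * ((stp P / bd P - ε / bd P) * Nat.primeCounting x) := by
    field_simp
  rw [h5] at hx3
  exact lt_of_mul_lt_mul_left hx3 hb0.le

theorem bd_neg (P : ℝ[X]) : bd (-P) = bd P := by
  unfold bd
  congr 1
  refine sum_congr rfl fun k _ => ?_
  rw [coeff_neg, abs_neg]

theorem stp_neg (P : ℝ[X]) : stp (-P) = -stp P := by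
  unfold stp
  rw [← sum_neg_distrib]
  refine sum_congr rfl fun k _ => ?_
  rw [coeff_neg, neg_mul]

theorem GP_neg (P : ℝ[X]) (p : ℕ) (a : ZMod p) : GP (-P) p a = -GP P p a := by
  classical
  unfold GP
  by_cases h : p.Prime
  · rw [dif_pos h, dif_pos h]
    split_ifs with ha
    · simp
    · rw [bd_neg, eval_neg, neg_div]
  · rw [dif_neg h, dif_neg h, neg_zero]

theorem hor_neg (P : ℝ[X]) (x : ℕ) (a : ℤ) : hor (-P) x a = -hor P x a := by
  unfold hor
  rw [bd_neg]
  simp only [GP_neg]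
  rw [sum_neg_distrib, mul_neg]

/-- both sides -/
theorem two_sides {P : ℝ[X]} (hP : P.natDegree ≤ 4) {ε : ℝ} (hε : 0 < ε) :
    ∃ C : ℝ, 0 < C ∧ ∀ (M : ℤ) (N y z : ℕ), 2 ≤ y → y ≤ z →
      open scoped Classical in
      (((Icc 1 N).filter fun n : ℕ => ∃ x, y ≤ x ∧ x ≤ z ∧
        ε * Nat.primeCounting x < |hor P x (M + (n : ℤ)) - stp P * Nat.primeCounting x|).card : ℝ) ≤
        C * (N / Nat.primeCounting y + z * Real.log z ^ 2) := by
  classical
  obtain ⟨C₁, hC₁, h₁⟩ := one_side hP hε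
  obtain ⟨C₂, hC₂, h₂⟩ := one_side (P := -P) (by rwa [natDegree_neg]) hε
  refine ⟨C₁ + C₂, by positivity, fun M N y z hy hyz => ?_⟩
  have k1 := h₁ M N y z hy hyz
  have k2 := h₂ M N y z hy hyz
  have hsub : ((Icc 1 N).filter fun n : ℕ => ∃ x, y ≤ x ∧ x ≤ z ∧
        ε * Nat.primeCounting x < |hor P x (M + (n : ℤ)) - stp P * Nat.primeCounting x|) ⊆
      ((Icc 1 N).filter fun n : ℕ => ∃ x, y ≤ x ∧ x ≤ z ∧
        hor P x (M + (n : ℤ)) < (stp P - ε) * Nat.primeCounting x) ∪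
      ((Icc 1 N).filter fun n : ℕ => ∃ x, y ≤ x ∧ x ≤ z ∧
        hor (-P) x (M + (n : ℤ)) < (stp (-P) - ε) * Nat.primeCounting x) := by
    intro n hn
    rw [mem_filter] at hn
    obtain ⟨hn1, x, hx1, hx2, hx3⟩ := hn
    rw [mem_union, mem_filter, mem_filter]
    rcases lt_abs.1 hx3 with h | h
    · right
      refine ⟨hn1, x, hx1, hx2, ?_⟩
      rw [hor_neg, stp_neg]
      linarith
    · left
      refine ⟨hn1, x, hx1, hx2, ?_⟩
      linarith
  have h3 := (card_le_card hsub).trans (card_union_le _ _)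
  have h4 : ((((Icc 1 N).filter fun n : ℕ => ∃ x, y ≤ x ∧ x ≤ z ∧
        ε * Nat.primeCounting x < |hor P x (M + (n : ℤ)) - stp P * Nat.primeCounting x|).card : ℕ) : ℝ) ≤ _ :=
    Nat.cast_le.2 h3
  push_cast at h4
  rw [add_mul]
  linarith

/-- the Kloosterman sum of the frozen statement -/
noncomputable def kls (p : ℕ) (a : ℤ) : ℝ :=
  ∑ x ∈ Ico 1 p, Real.cos (2 * Real.pi * ((((a : ZMod p) * (x : ZMod p) + (x : ZMod p)⁻¹).val : ℕ) : ℝ) / (p : ℝ))

theorem kls_eq {p : ℕ} [hp : Fact p.Prime] (a : ℤ) : kls p a = rk p (a : ZMod p) 1 := by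
  unfold kls rk Pool.Agent.TH375.KL.KK Pool.Agent.Helper916.Kl
  rw [Complex.re_sum]
  have h1 : ∀ z : ZMod p, (ZMod.stdAddChar ((a : ZMod p) * z + 1 * z⁻¹) : ℂ).re =
      Real.cos (2 * Real.pi * ((((a : ZMod p) * z + z⁻¹).val : ℕ) : ℝ) / (p : ℝ)) := by
    intro z
    rw [one_mul, ZMod.stdAddChar_apply, ZMod.toCircle_apply]
    have h2 : (2 * (Real.pi : ℂ) * Complex.I * (((a : ZMod p) * z + z⁻¹).val : ℂ) / (p : ℂ)) =
        ((2 * Real.pi * ((((a : ZMod p) * z + z⁻¹).val : ℕ) : ℝ) / (p : ℝ) : ℝ) : ℂ) * Complex.I := by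
      push_cast
      ring
    rw [h2, Complex.exp_ofReal_mul_I_re]
  rw [Finset.sum_congr rfl fun z _ => h1 z]
  refine Finset.sum_nbij' (fun x => (x : ZMod p)) ZMod.val ?_ ?_ ?_ ?_ ?_
  · intro x hx
    rw [Finset.mem_Ico] at hx
    rw [Finset.mem_erase]
    refine ⟨?_, Finset.mem_univ _⟩
    intro h0
    rw [ZMod.natCast_eq_zero_iff] at h0
    exact absurd (Nat.le_of_dvd hx.1 h0) (not_le.2 hx.2)
  · intro z hz
    rw [Finset.mem_erase] at hz
    rw [Finset.mem_Ico]
    exact ⟨Nat.pos_of_ne_zero fun h0 => hz.1 ((ZMod.val_eq_zero z).1 h0), ZMod.val_lt z⟩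
  · intro x hx
    rw [Finset.mem_Ico] at hx
    exact ZMod.val_cast_of_lt hx.2
  · intro z _
    exact ZMod.natCast_zmod_val z
  · intro x _
    rfl

/-- the cosine of the angle -/
theorem cos_angle {p : ℕ} [hp : Fact p.Prime] (a : ℤ) :
    Real.cos (Real.arccos (kls p a / (2 * Real.sqrt p))) = xx p (a : ZMod p) := by
  have h := abs_le.1 (xx_le (p := p) (a : ZMod p))
  unfold xx at h ⊢
  rw [kls_eq, Real.cos_arccos h.1 h.2]

/-- the sum in terms of the angles -/
theorem hor_eq (P : ℝ[X]) (x : ℕ) (a : ℤ) :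
    hor P x a = ∑ p ∈ (range (x + 1)).filter (fun p : ℕ => p.Prime ∧ ¬ (p : ℤ) ∣ a),
      P.eval (Real.cos (Real.arccos (kls p a / (2 * Real.sqrt p)))) := by
  classical
  unfold hor
  have h1 : ∑ p ∈ Pr x, GP P p (a : ZMod p) =
      (∑ p ∈ (range (x + 1)).filter (fun p : ℕ => p.Prime ∧ ¬ (p : ℤ) ∣ a),
      P.eval (Real.cos (Real.arccos (kls p a / (2 * Real.sqrt p))))) / bd P := by
    rw [sum_div]
    have h2 : (range (x + 1)).filter (fun p : ℕ => p.Prime ∧ ¬ (p : ℤ) ∣ a) =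
        (Pr x).filter (fun p : ℕ => ¬ (p : ℤ) ∣ a) := by
      ext p
      unfold Pr
      rw [mem_filter, mem_filter, mem_filter]
      tauto
    rw [h2, sum_filter]
    refine sum_congr rfl fun p hp => ?_
    have hpp : p.Prime := by
      unfold Pr at hp
      exact (mem_filter.1 hp).2
    haveI : Fact p.Prime := ⟨hpp⟩
    rw [GP_prime, cos_angle]
    by_cases hd : (p : ℤ) ∣ a
    · rw [if_pos ((ZMod.intCast_zmod_eq_zero_iff_dvd a p).2 hd), if_neg (not_not.2 hd)]
    · rw [if_neg (fun h => hd ((ZMod.intCast_zmod_eq_zero_iff_dvd a p).1 h)), if_pos hd]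
  rw [h1, mul_div_cancel₀ _ (by have := bd_pos P; linarith : bd P ≠ 0)]

end Pool.Agent.X35.KM
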