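import Pool.Agent.X35.KM.Win

set_option autoImplicit false

/-!
# Signs from the first four moments: the polynomial `-2 X ^ 4 - r X ^ 3 + 2 X ^ 2 + (3 r / 2) X`, `r = 1 / sqrt 2`
-/

namespace Pool.Agent.X35.KM

open Finset Polynomial Pool.Agent.TH375.KL

/-- the minorant of the indicator function of the positive reals -/
noncomputable def mino (r : ℝ) : ℝ[X] := C (-2) * X ^ 4 + C (-r) * X ^ 3 + C 2 * X ^ 2 + C (3 * r / 2) * X

theorem mino_deg (r : ℝ) : (mino r).natDegree ≤ 4 := by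
  unfold mino
  compute_degree

theorem mino_eval (r x : ℝ) : (mino r).eval x = -2 * x ^ 4 - r * x ^ 3 + 2 * x ^ 2 + 3 * r / 2 * x := by
  unfold mino
  simp
  ring

theorem mino_stp (r : ℝ) : stp (mino r) = 1 / 4 := by
  unfold stp mino
  have h : ∀ k : ℕ, (C (-2) * X ^ 4 + C (-r) * X ^ 3 + C 2 * X ^ 2 + C (3 * r / 2) * X : ℝ[X]).coeff k =
      -2 * (if k = 4 then 1 else 0) + (-r) * (if k = 3 then 1 else 0) + 2 * (if k = 2 then 1 else 0) +
        (3 * r / 2) * (if k = 1 then 1 else 0) := by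
    intro k
    simp only [coeff_add, coeff_C_mul, coeff_X_pow, coeff_X]
    congr 2
    simp only [eq_comm]
  simp only [h, sum_range_succ, sum_range_zero]
  norm_num [mu]

theorem mino_nonpos {r x : ℝ} (hr : 0 ≤ r) (hr2 : r ^ 2 = 1 / 2) (hx : x ≤ 0) : (mino r).eval x ≤ 0 := by
  rw [mino_eval]
  have h : -2 * x ^ 4 - r * x ^ 3 + 2 * x ^ 2 + 3 * r / 2 * x = x * (x + r) ^ 2 * (3 * r - 2 * x) := by
    have h1 : x * (x + r) ^ 2 * (3 * r - 2 * x) = -2 * x ^ 4 - r * x ^ 3 + 4 * r ^ 2 * x ^ 2 + 3 * r * r ^ 2 * x := by ring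
    rw [h1, hr2]
    ring
  rw [h]
  have h2 : 0 ≤ (x + r) ^ 2 * (3 * r - 2 * x) := mul_nonneg (sq_nonneg _) (by linarith)
  nlinarith

theorem mino_le_one {r x : ℝ} (hr2 : r ^ 2 = 1 / 2) : (mino r).eval x ≤ 1 := by
  rw [mino_eval]
  have h : 1 - (-2 * x ^ 4 - r * x ^ 3 + 2 * x ^ 2 + 3 * r / 2 * x) = (x - r) ^ 2 * (2 * x ^ 2 + 5 * r * x + 2) := by
    have h1 : (x - r) ^ 2 * (2 * x ^ 2 + 5 * r * x + 2) =
        2 * x ^ 4 + r * x ^ 3 + (2 - 8 * r ^ 2) * x ^ 2 + (5 * r * r ^ 2 - 4 * r) * x + 2 * r ^ 2 := by ring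
    rw [h1, hr2]
    ring
  have h2 : 0 ≤ 2 * x ^ 2 + 5 * r * x + 2 := by nlinarith [sq_nonneg (x + 5 * r / 4), sq_nonneg x]
  have h3 : 0 ≤ (x - r) ^ 2 * (2 * x ^ 2 + 5 * r * x + 2) := mul_nonneg (sq_nonneg _) h2
  linarith

theorem mino_le {r x : ℝ} (hr : 0 ≤ r) (hr2 : r ^ 2 = 1 / 2) : (mino r).eval x ≤ if 0 < x then 1 else 0 := by
  split_ifs with h
  · exact mino_le_one hr2
  · exact mino_nonpos hr hr2 (not_lt.1 h)

theorem cos_pos_iff {p : ℕ} (hp : p.Prime) (a : ℤ) :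
    Real.cos (Real.arccos (kls p a / (2 * Real.sqrt p))) = kls p a / (2 * Real.sqrt p) := by
  haveI : Fact p.Prime := ⟨hp⟩
  have h := abs_le.1 (xx_le (p := p) (a : ZMod p))
  unfold xx at h
  rw [← kls_eq] at h
  exact Real.cos_arccos h.1 h.2

theorem hor_mino_le {r : ℝ} (hr : 0 ≤ r) (hr2 : r ^ 2 = 1 / 2) (x : ℕ) (a : ℤ) :
    hor (mino r) x a ≤ (((range (x + 1)).filter (fun p : ℕ => p.Prime ∧ ¬ (p : ℤ) ∣ a ∧ 0 < kls p a)).card : ℝ) := by
  classical
  rw [hor_eq]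
  have h1 : (range (x + 1)).filter (fun p : ℕ => p.Prime ∧ ¬ (p : ℤ) ∣ a ∧ 0 < kls p a) =
      ((range (x + 1)).filter (fun p : ℕ => p.Prime ∧ ¬ (p : ℤ) ∣ a)).filter (fun p => 0 < kls p a) := by
    rw [filter_filter]
    congr 1
    ext p
    tauto
  rw [h1, card_filter]
  push_cast
  refine sum_le_sum fun p hp => ?_
  rw [mem_filter] at hp
  refine (mino_le hr hr2).trans ?_
  have hp0 : (0 : ℝ) < 2 * Real.sqrt p := by
    have : (0 : ℝ) < p := by exact_mod_cast hp.2.1.pos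
    positivity
  rw [cos_pos_iff hp.2.1]
  have h2 : 0 < kls p a / (2 * Real.sqrt p) ↔ 0 < kls p a := by
    constructor
    · intro h
      exact (div_pos_iff_of_pos_right hp0).1 h
    · intro h
      exact div_pos h hp0
  by_cases h : 0 < kls p a
  · rw [if_pos (h2.2 h), if_pos h]
  · rw [if_neg (fun h' => h (h2.1 h')), if_neg h]

/-- the minorant of the indicator function of the negative reals -/
noncomputable def minn (r : ℝ) : ℝ[X] := C (-2) * X ^ 4 + C r * X ^ 3 + C 2 * X ^ 2 + C (-(3 * r / 2)) * X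

theorem minn_deg (r : ℝ) : (minn r).natDegree ≤ 4 := by
  unfold minn
  compute_degree

theorem minn_eval (r x : ℝ) : (minn r).eval x = (mino r).eval (-x) := by
  rw [mino_eval]
  unfold minn
  simp
  ring

theorem minn_stp (r : ℝ) : stp (minn r) = 1 / 4 := by
  unfold stp minn
  have h : ∀ k : ℕ, (C (-2) * X ^ 4 + C r * X ^ 3 + C 2 * X ^ 2 + C (-(3 * r / 2)) * X : ℝ[X]).coeff k =
      -2 * (if k = 4 then 1 else 0) + r * (if k = 3 then 1 else 0) + 2 * (if k = 2 then 1 else 0) +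
        (-(3 * r / 2)) * (if k = 1 then 1 else 0) := by
    intro k
    simp only [coeff_add, coeff_C_mul, coeff_X_pow, coeff_X]
    congr 2
    simp only [eq_comm]
  simp only [h, sum_range_succ, sum_range_zero]
  norm_num [mu]

theorem hor_minn_le {r : ℝ} (hr : 0 ≤ r) (hr2 : r ^ 2 = 1 / 2) (x : ℕ) (a : ℤ) :
    hor (minn r) x a ≤ (((range (x + 1)).filter (fun p : ℕ => p.Prime ∧ ¬ (p : ℤ) ∣ a ∧ kls p a < 0)).card : ℝ) := by
  classical
  rw [hor_eq]
  have h1 : (range (x + 1)).filter (fun p : ℕ => p.Prime ∧ ¬ (p : ℤ) ∣ a ∧ kls p a < 0) =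
      ((range (x + 1)).filter (fun p : ℕ => p.Prime ∧ ¬ (p : ℤ) ∣ a)).filter (fun p => kls p a < 0) := by
    rw [filter_filter]
    congr 1
    ext p
    tauto
  rw [h1, card_filter]
  push_cast
  refine sum_le_sum fun p hp => ?_
  rw [mem_filter] at hp
  rw [minn_eval]
  refine (mino_le hr hr2).trans ?_
  have hp0 : (0 : ℝ) < 2 * Real.sqrt p := by
    have : (0 : ℝ) < p := by exact_mod_cast hp.2.1.pos
    positivity
  rw [cos_pos_iff hp.2.1]
  have h2 : 0 < -(kls p a / (2 * Real.sqrt p)) ↔ kls p a < 0 := by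
    rw [← neg_div]
    constructor
    · intro h
      have := (div_pos_iff_of_pos_right hp0).1 h
      linarith
    · intro h
      exact div_pos (by linarith) hp0
  by_cases h : kls p a < 0
  · rw [if_pos (h2.2 h), if_pos h]
  · rw [if_neg (fun h' => h (h2.1 h')), if_neg h]

end Pool.Agent.X35.KM
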