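import Pool.Agent.X35.KM.Int
import Pool.Agent.X35.GM.Cumul
import Pool.Agent.Y854.GM.Win

set_option autoImplicit false

/-!
# The first moments of the Kloosterman angles for all integers close to a thin sequence
-/

namespace Pool.Agent.X35.KM

open Finset Polynomial Pool.Agent.TH375.KL Pool.Agent.X35.GM

/-- the exceptional integers -/
def bad (P : ℝ[X]) (η δ : ℝ) : Set ℤ := {a : ℤ | ∃ x : ℕ, |(a : ℝ)| ^ δ ≤ x ∧ (x : ℝ) ≤ |(a : ℝ)| ^ (1 - δ) ∧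
  η * Nat.primeCounting x < |hor P x a - stp P * Nat.primeCounting x|}

theorem hor_small (P : ℝ[X]) {x : ℕ} (hx : x < 2) (a : ℤ) : hor P x a = 0 := by
  rw [hor_eq]
  apply Finset.sum_eq_zero
  intro p hp
  rw [mem_filter, mem_range] at hp
  exact absurd hp.2.1.two_le (by omega)

theorem pi_small {x : ℕ} (hx : x < 2) : Nat.primeCounting x = 0 := by
  rw [← card_Pr, card_eq_zero]
  unfold Pr
  rw [filter_eq_empty_iff]
  intro p hp h
  rw [mem_range] at hp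
  exact absurd h.two_le (by omega)

theorem pi_lower {ε : ℝ} (hε : 0 < ε) : ∃ c : ℝ, 0 < c ∧ ∀ n : ℕ, 2 ≤ n → (n : ℝ) ^ (1 - ε) ≤ c * Nat.primeCounting n := by
  obtain ⟨C, hC, h⟩ := cheb
  refine ⟨C / ε, by positivity, fun n hn => ?_⟩
  have hn1 : (2 : ℝ) ≤ n := by exact_mod_cast hn
  have hn0 : (0 : ℝ) < n := by linarith
  have h1 := h n hn
  have h2 : Real.log n ≤ (n : ℝ) ^ ε / ε := Real.log_le_rpow_div hn0.le hε
  have h3 : (n : ℝ) ≤ (C / ε * Nat.primeCounting n) * (n : ℝ) ^ ε := by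
    calc (n : ℝ) ≤ C * (Nat.primeCounting n * Real.log n) := h1
      _ ≤ C * (Nat.primeCounting n * ((n : ℝ) ^ ε / ε)) := by gcongr
      _ = (C / ε * Nat.primeCounting n) * (n : ℝ) ^ ε := by ring
  rw [Real.rpow_sub hn0, Real.rpow_one, div_le_iff₀ (by positivity)]
  exact h3

theorem shells {P : ℝ[X]} (hP : P.natDegree ≤ 4) {η : ℝ} (hη : 0 < η) {δ : ℝ} (hδ : 0 < δ) (hδ1 : δ ≤ 1) :
    ∀ ε : ℝ, 0 < ε → ∃ C : ℝ, ∀ i : ℕ, ((shell (bad P η δ) i).ncard : ℝ) ≤ C * ((2 : ℝ) ^ i) ^ ((1 - δ) + ε) := by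
  classical
  intro ε hε
  obtain ⟨C, hC, h⟩ := two_sides hP hη
  set e : ℝ := min ε 1 with he
  have he0 : 0 < e := lt_min hε one_pos
  have he1 : e ≤ 1 := min_le_right _ _
  have heε : e ≤ ε := min_le_left _ _
  obtain ⟨c, hc, hpi⟩ := pi_lower he0
  refine ⟨C * (4 * c + 16 / e ^ 2), fun i => ?_⟩
  set T : ℝ := (2 : ℝ) ^ i with hT
  have hT1 : 1 ≤ T := one_le_pow₀ (by norm_num)
  have hT0 : 0 < T := by linarith
  have hTε : T ^ ((1 - δ) + e) ≤ T ^ ((1 - δ) + ε) := Real.rpow_le_rpow_of_exponent_le hT1 (by linarith)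
  rcases Set.eq_empty_or_nonempty (shell (bad P η δ) i) with h0 | ⟨a₀, ha₀⟩
  · rw [h0, Set.ncard_empty]
    push_cast
    positivity
  set y : ℕ := max 2 ⌈T ^ δ⌉₊ with hy
  set z : ℕ := ⌊((2 : ℝ) ^ (i + 1)) ^ (1 - δ)⌋₊ with hz
  have key : ∀ a ∈ shell (bad P η δ) i, ∃ x : ℕ, y ≤ x ∧ x ≤ z ∧
      η * Nat.primeCounting x < |hor P x a - stp P * Nat.primeCounting x| := by
    rintro a ⟨⟨x, hx1, hx2, hx3⟩, ha1, ha2⟩
    have hA1 : T ≤ |(a : ℝ)| := by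
      rw [hT]
      exact_mod_cast ha1
    have hA2 : |(a : ℝ)| ≤ (2 : ℝ) ^ (i + 1) := by
      have := ha2.le
      exact_mod_cast this
    refine ⟨x, ?_, ?_, hx3⟩
    · rw [hy]
      apply max_le
      · by_contra hcon
        push Not at hcon
        rw [hor_small P hcon, pi_small hcon] at hx3
        simp at hx3
      · apply Nat.ceil_le.2
        exact (Real.rpow_le_rpow hT0.le hA1 hδ.le).trans hx1
    · apply Nat.le_floor
      exact hx2.trans (Real.rpow_le_rpow (abs_nonneg _) hA2 (by linarith))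
  have hyz : y ≤ z := by
    obtain ⟨x, h1, h2, -⟩ := key a₀ ha₀
    exact h1.trans h2
  have hy2 : 2 ≤ y := le_max_left _ _
  have hb := h (-2 ^ (i + 1)) (2 ^ (i + 2)) y z hy2 hyz
  have hsub : shell (bad P η δ) i ⊆ (((Icc 1 (2 ^ (i + 2))).filter fun n : ℕ => ∃ x, y ≤ x ∧ x ≤ z ∧
        η * Nat.primeCounting x < |hor P x ((-2 ^ (i + 1)) + (n : ℤ)) - stp P * Nat.primeCounting x|).image
        (fun n : ℕ => (-2 ^ (i + 1) : ℤ) + (n : ℤ)) : Finset ℤ) := by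
    intro a ha
    have h2 := ha.2.2
    rw [abs_lt] at h2
    have h7 : ((a + 2 ^ (i + 1)).toNat : ℤ) = a + 2 ^ (i + 1) := Int.toNat_of_nonneg (by linarith)
    rw [Finset.coe_image]
    refine ⟨(a + 2 ^ (i + 1)).toNat, ?_, ?_⟩
    · rw [mem_coe, mem_filter, mem_Icc]
      have h8 : (2 : ℤ) ^ (i + 2) = 2 * 2 ^ (i + 1) := by ring
      refine ⟨⟨?_, ?_⟩, ?_⟩
      · zify
        rw [h7]
        linarith
      · zify
        rw [h7, h8]
        linarith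
      · rw [h7]
        have h9 : -2 ^ (i + 1) + (a + 2 ^ (i + 1)) = a := by ring
        rw [h9]
        exact key a ha
    · show (-2 ^ (i + 1) : ℤ) + ((a + 2 ^ (i + 1)).toNat : ℤ) = a
      rw [h7]
      ring
  have hcard := Set.ncard_le_ncard hsub (Finset.finite_toSet _)
  rw [Set.ncard_coe_finset] at hcard
  have hcard2 : ((shell (bad P η δ) i).ncard : ℝ) ≤
      C * (((2 ^ (i + 2) : ℕ) : ℝ) / Nat.primeCounting y + z * Real.log z ^ 2) := by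
    refine le_trans ?_ hb
    exact_mod_cast hcard.trans card_image_le
  refine hcard2.trans ?_
  rw [mul_assoc]
  apply mul_le_mul_of_nonneg_left _ hC.le
  refine le_trans ?_ (mul_le_mul_of_nonneg_left hTε (by positivity))
  rw [add_mul]
  -- the first term
  have hyr : T ^ δ ≤ y := (Nat.le_ceil _).trans (by exact_mod_cast le_max_right 2 ⌈T ^ δ⌉₊)
  have hpiy := hpi y hy2
  have hpi0 : (0 : ℝ) < Nat.primeCounting y := by exact_mod_cast pi_pos hy2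
  have hTy : T ^ (δ - e) ≤ c * Nat.primeCounting y := by
    refine le_trans ?_ hpiy
    calc T ^ (δ - e) ≤ T ^ (δ * (1 - e)) := by
          apply Real.rpow_le_rpow_of_exponent_le hT1
          nlinarith
      _ = (T ^ δ) ^ (1 - e) := by rw [Real.rpow_mul hT0.le]
      _ ≤ (y : ℝ) ^ (1 - e) := Real.rpow_le_rpow (by positivity) hyr (by linarith)
  have h1 : (((2 ^ (i + 2) : ℕ) : ℝ) / Nat.primeCounting y) ≤ 4 * c * T ^ ((1 - δ) + e) := by
    have h2 : ((2 ^ (i + 2) : ℕ) : ℝ) = 4 * T := by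
      push_cast
      rw [hT]
      ring
    rw [h2, div_le_iff₀ hpi0]
    have h3 : T = T ^ ((1 - δ) + e) * T ^ (δ - e) := by
      rw [← Real.rpow_add hT0]
      have : (1 - δ) + e + (δ - e) = 1 := by ring
      rw [this, Real.rpow_one]
    calc 4 * T = 4 * (T ^ ((1 - δ) + e) * T ^ (δ - e)) := by rw [← h3]
      _ ≤ 4 * (T ^ ((1 - δ) + e) * (c * Nat.primeCounting y)) := by gcongr
      _ = 4 * c * T ^ ((1 - δ) + e) * Nat.primeCounting y := by ring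
  -- the second term
  have hz2 : (2 : ℝ) ≤ z := by exact_mod_cast hy2.trans hyz
  have hz0 : (0 : ℝ) < z := by linarith
  have hzT : (z : ℝ) ≤ 2 * T ^ (1 - δ) := by
    have h2 : ((2 : ℝ) ^ (i + 1)) ^ (1 - δ) = (2 : ℝ) ^ (1 - δ) * T ^ (1 - δ) := by
      rw [pow_succ, mul_comm, Real.mul_rpow (by norm_num) (by positivity)]
    have h3 : (2 : ℝ) ^ (1 - δ) ≤ 2 := by
      calc (2 : ℝ) ^ (1 - δ) ≤ (2 : ℝ) ^ (1 : ℝ) := Real.rpow_le_rpow_of_exponent_le (by norm_num) (by linarith)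
        _ = 2 := Real.rpow_one 2
    calc (z : ℝ) ≤ ((2 : ℝ) ^ (i + 1)) ^ (1 - δ) := Nat.floor_le (by positivity)
      _ = (2 : ℝ) ^ (1 - δ) * T ^ (1 - δ) := h2
      _ ≤ 2 * T ^ (1 - δ) := by gcongr
  have hz2T : (z : ℝ) ≤ 2 * T := by
    refine hzT.trans ?_
    have : T ^ (1 - δ) ≤ T := by
      calc T ^ (1 - δ) ≤ T ^ (1 : ℝ) := Real.rpow_le_rpow_of_exponent_le hT1 (by linarith)
        _ = T := Real.rpow_one T
    linarith
  have hlog : Real.log z ^ 2 ≤ 8 / e ^ 2 * T ^ e := by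
    have h2 : Real.log z ≤ (z : ℝ) ^ (e / 2) / (e / 2) := Real.log_le_rpow_div hz0.le (by positivity)
    have h3 : 0 ≤ Real.log z := Real.log_nonneg (by linarith)
    have h4 : Real.log z ^ 2 ≤ ((z : ℝ) ^ (e / 2) / (e / 2)) ^ 2 := pow_le_pow_left₀ h3 h2 2
    refine h4.trans ?_
    have h5 : ((z : ℝ) ^ (e / 2)) ^ 2 = (z : ℝ) ^ e := by
      rw [← Real.rpow_natCast, ← Real.rpow_mul hz0.le]
      congr 1
      push_cast
      ring
    have h6 : (z : ℝ) ^ e ≤ 2 * T ^ e := by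
      calc (z : ℝ) ^ e ≤ (2 * T) ^ e := Real.rpow_le_rpow hz0.le hz2T he0.le
        _ = 2 ^ e * T ^ e := Real.mul_rpow (by norm_num) hT0.le
        _ ≤ 2 * T ^ e := by
            have : (2 : ℝ) ^ e ≤ 2 := by
              calc (2 : ℝ) ^ e ≤ (2 : ℝ) ^ (1 : ℝ) := Real.rpow_le_rpow_of_exponent_le (by norm_num) he1
                _ = 2 := Real.rpow_one 2
            gcongr
    rw [div_pow, h5]
    calc (z : ℝ) ^ e / (e / 2) ^ 2 ≤ (2 * T ^ e) / (e / 2) ^ 2 := by gcongr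
      _ = 8 / e ^ 2 * T ^ e := by field_simp; ring
  have h2 : (z : ℝ) * Real.log z ^ 2 ≤ 16 / e ^ 2 * T ^ ((1 - δ) + e) := by
    calc (z : ℝ) * Real.log z ^ 2 ≤ (2 * T ^ (1 - δ)) * (8 / e ^ 2 * T ^ e) := by gcongr
      _ = 16 / e ^ 2 * T ^ ((1 - δ) + e) := by rw [Real.rpow_add hT0]; ring
  linarith

theorem hor_sum {P : ℝ[X]} (hP : P.natDegree ≤ 4) (x : ℕ) (a : ℤ) :
    hor P x a = ∑ k ∈ range 5, P.coeff k * hor (X ^ k) x a := by
  simp only [hor_eq, mul_sum]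
  rw [sum_comm]
  refine sum_congr rfl fun p _ => ?_
  rw [eval_eq_sum_range' (Nat.lt_succ_of_le hP)]
  simp

theorem stp_mono {k : ℕ} (hk : k < 5) : stp (X ^ k : ℝ[X]) = mu k := by
  unfold stp
  rw [sum_eq_single k]
  · simp
  · intro j _ hj
    rw [coeff_X_pow, if_neg hj, zero_mul]
  · intro h
    exact absurd (mem_range.2 hk) h

theorem stp_sum (P : ℝ[X]) : stp P = ∑ k ∈ range 5, P.coeff k * stp (X ^ k : ℝ[X]) := by
  show ∑ k ∈ range 5, P.coeff k * mu k = _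
  refine sum_congr rfl fun k hk => ?_
  rw [stp_mono (mem_range.1 hk)]

theorem windows {δ τ θ : ℝ} (hδ : 0 < δ) (hδ1 : δ ≤ 1) (hτ : 0 ≤ τ) (hθ : θ < 1) {v : ℕ → ℝ} (hv1 : ∀ n, 1 ≤ v n)
    (hv : ∀ t : ℝ, τ < t → Summable (fun n => v n ^ (-t))) :
    ∃ E : Set ℝ, dimH E ≤ ENNReal.ofReal ((1 - δ + τ) / (1 - θ)) ∧ ∀ α : ℝ, 0 < α → α ∉ E →
      ∀ P : ℝ[X], P.natDegree ≤ 4 → ∀ ε : ℝ, 0 < ε → ∃ n₀ : ℕ, ∀ n : ℕ, n₀ ≤ n →
        ∀ a : ℤ, |(|(a : ℝ)|) - α * v n| ≤ v n ^ θ → ∀ x : ℕ, |(a : ℝ)| ^ δ ≤ x → (x : ℝ) ≤ |(a : ℝ)| ^ (1 - δ) →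
          |hor P x a - stp P * Nat.primeCounting x| ≤ ε * Nat.primeCounting x := by
  classical
  have hw : ∀ kj : (Fin 5) × ℕ, ∃ E : Set ℝ, dimH E ≤ ENNReal.ofReal ((1 - δ + τ) / (1 - θ)) ∧ ∀ α : ℝ, 0 < α → α ∉ E →
      ∃ n0 : ℕ, ∀ n : ℕ, n0 ≤ n → ∀ t ∈ bad (X ^ (kj.1 : ℕ)) (1 / ((kj.2 : ℝ) + 1)) δ, (v n) ^ θ < |(|(t : ℝ)|) - α * v n| := by
    intro kj
    refine Pool.Agent.Y854.GM.windows (bad (X ^ (kj.1 : ℕ)) (1 / ((kj.2 : ℝ) + 1)) δ) (fun t : ℤ => |(t : ℝ)|) hv1 hτ hv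
      (by linarith) hθ ?_
    refine cumul _ (by linarith) (shells ?_ (by positivity) hδ hδ1)
    rw [natDegree_X_pow]
    omega
  choose E hE hE2 using hw
  refine ⟨⋃ kj, E kj, ?_, fun α hα hαE P hP ε hε => ?_⟩
  · rw [dimH_iUnion]
    exact iSup_le hE
  set B : ℝ := ∑ k ∈ range 5, |P.coeff k| with hB
  have hB0 : 0 ≤ B := sum_nonneg fun _ _ => abs_nonneg _
  obtain ⟨j, hj⟩ := exists_nat_gt (B / ε)
  have hnot : ∀ kj, α ∉ E kj := fun kj h => hαE (Set.mem_iUnion.2 ⟨kj, h⟩)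
  choose n0 hn0 using fun k : Fin 5 => hE2 (k, j) α hα (hnot (k, j))
  refine ⟨Finset.univ.sup n0, fun n hn a ha x hx1 hx2 => ?_⟩
  have hpi0 : (0 : ℝ) ≤ Nat.primeCounting x := Nat.cast_nonneg _
  have h1 : ∀ k ∈ range 5, |hor (X ^ k) x a - stp (X ^ k) * Nat.primeCounting x| ≤ (1 / ((j : ℝ) + 1)) * Nat.primeCounting x := by
    intro k hk
    by_contra hcon
    push Not at hcon
    have h2 := hn0 ⟨k, mem_range.1 hk⟩ n ((Finset.le_sup (f := n0) (mem_univ _)).trans hn) a ⟨x, hx1, hx2, hcon⟩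
    exact absurd ha (not_le.2 h2)
  have h3 : hor P x a - stp P * Nat.primeCounting x =
      ∑ k ∈ range 5, P.coeff k * (hor (X ^ k) x a - stp (X ^ k) * Nat.primeCounting x) := by
    rw [hor_sum hP, stp_sum P, sum_mul, ← sum_sub_distrib]
    refine sum_congr rfl fun k _ => ?_
    ring
  rw [h3]
  have hBj : B * (1 / ((j : ℝ) + 1)) ≤ ε := by
    rw [div_lt_iff₀ hε] at hj
    rw [mul_one_div, div_le_iff₀ (by positivity)]
    nlinarith
  calc |∑ k ∈ range 5, P.coeff k * (hor (X ^ k) x a - stp (X ^ k) * Nat.primeCounting x)|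
      ≤ ∑ k ∈ range 5, |P.coeff k| * ((1 / ((j : ℝ) + 1)) * Nat.primeCounting x) := by
        refine (abs_sum_le_sum_abs _ _).trans (sum_le_sum fun k hk => ?_)
        rw [abs_mul]
        exact mul_le_mul_of_nonneg_left (h1 k hk) (abs_nonneg _)
    _ = (B * (1 / ((j : ℝ) + 1))) * Nat.primeCounting x := by rw [← sum_mul, hB]; ring
    _ ≤ ε * Nat.primeCounting x := mul_le_mul_of_nonneg_right hBj hpi0

end Pool.Agent.X35.KM
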